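import Pool.Agent.TWC.FINA

/-!
# Finite travelling waves over convex cross sections are `q`-concave

Tube `Ω = D × ℝ` over a bounded convex open set `D ⊆ ℝ^N` (`N ≥ 1`) with the uniform interior ball
condition (this includes all bounded convex domains with smooth boundary), `p > 2`, any speed `c > 0`.
For every finite travelling wave `φ` of the tube problem the set `{φ > 0}` is convex and
`φ^((p-2)/p)` is concave on it.
-/

open Set Metric Filter Topology MeasureTheory
open scoped RealInnerProductSpace ContDiff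

noncomputable section

namespace Pool.Agent.Results.MP_af4367_an.ConcaveWave

open Pool.Agent.TWC

/-- The positivity set `{φ > 0}` of `φ` in the tube. -/
def posSet {N : ℕ} (D : Set (E N)) (φ : E (N + 1) → ℝ) : Set (E (N + 1)) :=
  {x | x ∈ cyl D ∧ 0 < φ x}

theorem result {N : ℕ} (hN : 0 < N) {D : Set (E N)} {r0 : ℝ} (hD : Dom r0 D) {p c : ℝ} (hp : 2 < p)
    (hc : 0 < c) {Φ : E N → ℝ} {φ : E (N + 1) → ℝ} (hφ : IsWave p c D Φ φ) :
    Convex ℝ (posSet D φ) ∧ ConcaveOn ℝ (posSet D φ) (fun x => φ x ^ ((p - 2) / p)) := by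
  have htw := fin_tw hp hc hN hD hφ
  have hPo : Po (ext0 (cyl D) φ) = posSet D φ := by
    ext x
    simp only [Po, posSet, ext0, mem_ofPred_eq]
    by_cases hx : x ∈ cyl D
    · simp [hx]
    · simp [hx]
  have hconv : Convex ℝ (posSet D φ) := by rw [← hPo]; exact htw.qs.convex
  refine ⟨hconv, hconv, ?_⟩
  have hcc := htw.qs.conc
  rw [hPo] at hcc
  intro x hx y hy a b ha hb hab
  have h1 := hcc.2 hx hy ha hb hab
  have hz := hconv hx hy ha hb hab
  simp only [ext0, hx.1, hy.1, hz.1, if_true, qq] at h1
  exact h1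

end Pool.Agent.Results.MP_af4367_an.ConcaveWave
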