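import Pool.Agent.TWC.FINA
import Pool.Agent.TWC.TOU

/-!
# Free boundary contact with the wall is tangential (convex cross sections)

Tube `Ω = D × ℝ` over a bounded convex open set `D ⊆ ℝ^N` (`N ≥ 1`) with the uniform interior ball
condition (this includes all bounded convex domains with smooth boundary), `p > 2`, any speed `c > 0`.
For every finite travelling wave `φ` of the tube problem
(`Δ_p φ + c ∂_ξ φ + φ/(p-2) = 0` in `Ω`, `φ = 0` on `∂Ω`, `φ → Φ` as `ξ → -∞`, `φ = 0` for large `ξ`)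
the free boundary `Γ_φ = Ω ∩ ∂{φ > 0}` meets the wall tangentially at every contact point.
-/

open Set Metric Filter Topology MeasureTheory
open scoped RealInnerProductSpace ContDiff

noncomputable section

namespace Pool.Agent.Results.MP_af4367_an.TangentialContact

open Pool.Agent.TWC

/-- The positivity set `{φ > 0}` of `φ` in the tube. -/
def posSet {N : ℕ} (D : Set (E N)) (φ : E (N + 1) → ℝ) : Set (E (N + 1)) :=
  {x | x ∈ cyl D ∧ 0 < φ x}

/-- The free boundary `Γ_φ = Ω ∩ ∂{φ > 0}`. -/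
def freeBdry {N : ℕ} (D : Set (E N)) (φ : E (N + 1) → ℝ) : Set (E (N + 1)) :=
  cyl D ∩ frontier (posSet D φ)

/-- Contact points: points of the wall in the closure of the free boundary. -/
def Contact {N : ℕ} (D : Set (E N)) (φ : E (N + 1) → ℝ) (w : E (N + 1)) : Prop :=
  w ∈ frontier (cyl D) ∧ w ∈ closure (freeBdry D φ)

/-- The free boundary is tangent to the wall at `w` (contact angle zero). There is a unit vector `ν`, the
inner normal of the wall at `w`, such that for every `ε > 0`, close to `w`: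
* all points `x` of the tube with `φ x = 0`, in particular all points of the free boundary, have distance at
  most `ε |x - w|` from the wall;
* every unit normal `μ` of a hyperplane supporting `{φ > 0}` at a free boundary point `x` (there is one, as
  `{φ > 0}` is convex) satisfies `|μ - ν| ≤ ε`. -/
def TangentAt {N : ℕ} (D : Set (E N)) (φ : E (N + 1) → ℝ) (w : E (N + 1)) : Prop :=
  ∃ ν : E (N + 1), ‖ν‖ = 1 ∧ (∀ y ∈ cyl D, 0 < ⟪y - w, ν⟫) ∧
    ∀ ε : ℝ, 0 < ε → ∃ r : ℝ, 0 < r ∧ ∀ x ∈ cyl D, ‖x - w‖ < r →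
      (φ x = 0 → infDist x (frontier (cyl D)) ≤ ε * ‖x - w‖) ∧
      (x ∈ freeBdry D φ →
        φ x = 0 ∧ (∃ μ : E (N + 1), ‖μ‖ = 1 ∧ ∀ y ∈ posSet D φ, 0 ≤ ⟪y - x, μ⟫) ∧
        ∀ μ : E (N + 1), ‖μ‖ = 1 → (∀ y ∈ posSet D φ, 0 ≤ ⟪y - x, μ⟫) → ‖μ - ν‖ ≤ ε)

theorem result {N : ℕ} (hN : 0 < N) {D : Set (E N)} {r0 : ℝ} (hD : Dom r0 D) {p c : ℝ} (hp : 2 < p)
    (hc : 0 < c) {Φ : E N → ℝ} {φ : E (N + 1) → ℝ} (hφ : IsWave p c D Φ φ) {w : E (N + 1)}
    (hw : Contact D φ w) : TangentAt D φ w := by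
  have hT := cyl_tube hN hD
  have hne := cyl_compl hN hD
  have htw := fin_tw hp hc hN hD hφ
  have hPo : Po (ext0 (cyl D) φ) = posSet D φ := by
    ext x
    simp only [Po, posSet, ext0, mem_ofPred_eq]
    by_cases hx : x ∈ cyl D
    · simp [hx]
    · simp [hx]
  obtain ⟨ν, hν, hb⟩ := hT.intball w hw.1
  have hcl : w ∈ closure (Po (ext0 (cyl D) φ)) := by
    rw [hPo]
    have h1 : freeBdry D φ ⊆ closure (posSet D φ) := fun x hx => frontier_subset_closure hx.2
    exact closure_minimal h1 isClosed_closure hw.2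
  have hctx : Ctx p c (axis N) r0 (cyl D) (ext0 (cyl D) φ) w ν :=
    ⟨hp, hc, hT, hne, htw, hw.1, hcl, hν, hb⟩
  have hopen : IsOpen (posSet D φ) := by rw [← hPo]; exact htw.qs.isOpen
  have hconv : Convex ℝ (posSet D φ) := by rw [← hPo]; exact htw.qs.convex
  have hnonempty : (posSet D φ).Nonempty := by
    rw [← hPo]; exact closure_nonempty_iff.1 ⟨w, hcl⟩
  refine ⟨ν, hν, fun y hy => half hT hw.1 hν hb hy, ?_⟩
  intro ε hε
  obtain ⟨r1, hr1, h1⟩ := tgf hctx hε
  obtain ⟨r2, hr2, h2⟩ := ncv hctx hε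
  refine ⟨min r1 r2, lt_min hr1 hr2, ?_⟩
  intro x hx hxr
  have hext : ext0 (cyl D) φ x = φ x := by simp [ext0, hx]
  refine ⟨?_, ?_⟩
  · intro h0
    have h3 := h1 x hx (lt_of_lt_of_le hxr (min_le_left _ _)) (by rw [hext]; exact h0)
    have hnu : cyl D ≠ univ := by
      intro h; rw [h] at hne; simp at hne
    obtain ⟨y, hy, hyd⟩ := exists_mem_frontier_infDist_compl_eq_dist hx hnu
    calc infDist x (frontier (cyl D)) ≤ dist x y := infDist_le_dist_of_mem hy
      _ = dw (cyl D) x := by rw [← hyd]; rfl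
      _ ≤ ε * ‖x - w‖ := h3
  · intro hfb
    have hxn : x ∉ posSet D φ := by
      have := hfb.2
      rw [hopen.frontier_eq] at this
      exact this.2
    refine ⟨?_, ?_, ?_⟩
    · have h4 : 0 ≤ φ x := hφ.nonneg x hx
      by_contra h5
      exact hxn ⟨hx, lt_of_le_of_ne h4 (Ne.symm h5)⟩
    · obtain ⟨f, hf⟩ := geometric_hahn_banach_open_point hconv hopen hxn
      set m : E (N + 1) := (InnerProductSpace.toDual ℝ (E (N + 1))).symm f with hm
      have hfm : ∀ y, f y = ⟪m, y⟫ := by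
        intro y
        rw [hm, InnerProductSpace.toDual_symm_apply]
      have hm0 : m ≠ 0 := by
        obtain ⟨y, hy⟩ := hnonempty
        intro h
        have := hf y hy
        rw [hfm, hfm, h] at this
        simp at this
      have hmn : 0 < ‖m‖ := norm_pos_iff.2 hm0
      refine ⟨-(‖m‖⁻¹ • m), ?_, ?_⟩
      · rw [norm_neg, norm_smul, norm_inv, norm_norm, inv_mul_cancel₀ hmn.ne']
      · intro y hy
        have h6 := hf y hy
        rw [hfm, hfm] at h6
        rw [inner_neg_right, inner_smul_right, inner_sub_left, real_inner_comm m y, real_inner_comm m x]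
        have h7 : ⟪m, y⟫ - ⟪m, x⟫ < 0 := by linarith
        have h8 : 0 < ‖m‖⁻¹ := inv_pos.2 hmn
        nlinarith
    · intro μ hμ hsup
      exact h2 x (lt_of_lt_of_le hxr (min_le_right _ _)) μ hμ (by rw [hPo]; exact hsup)

end Pool.Agent.Results.MP_af4367_an.TangentialContact
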