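import Pool.Agent.TWC.FINA

/-!
# Finite travelling waves over convex cross sections are unique up to translation

Tube `Ω = D × ℝ` over a bounded convex open set `D ⊆ ℝ^N` (`N ≥ 1`) with the uniform interior ball
condition (this includes all bounded convex domains with smooth boundary), `p > 2`. Two finite
travelling waves of the tube problem with the same speed `c > 0` and the same profile `Φ` at `-∞` are
translates of each other along the axis.
-/

open Set Metric Filter Topology MeasureTheory
open scoped RealInnerProductSpace ContDiff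

noncomputable section

namespace Pool.Agent.Results.MP_af4367_an.UniqueWave

open Pool.Agent.TWC

theorem result {N : ℕ} (hN : 0 < N) {D : Set (E N)} {r0 : ℝ} (hD : Dom r0 D) {p c : ℝ} (hp : 2 < p)
    (hc : 0 < c) {Φ : E N → ℝ} {φ₁ φ₂ : E (N + 1) → ℝ} (h₁ : IsWave p c D Φ φ₁)
    (h₂ : IsWave p c D Φ φ₂) : ∃ h : ℝ, ∀ x ∈ cyl D, φ₂ x = φ₁ (x + h • axis N) := by
  obtain ⟨s1, hs1⟩ := fin_shift hp hc hN hD h₁
  obtain ⟨s2, hs2⟩ := fin_shift hp hc hN hD h₂
  refine ⟨s1 - s2, ?_⟩
  intro x hx
  have hx' : x + (s1 - s2) • axis N ∈ cyl D := by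
    change zq _ ∈ D
    rw [zq_add]; exact hx
  have e2 := hs2 x
  have e1 := hs1 (x + (s1 - s2) • axis N)
  have e3 : x + (s1 - s2) • axis N - s1 • axis N = x - s2 • axis N := by
    rw [sub_smul]; abel
  rw [e3] at e1
  simp only [ext0, hx, hx', if_true] at e1 e2
  rw [e2, e1]

end Pool.Agent.Results.MP_af4367_an.UniqueWave
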